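import Pool.Agent.H3.Six

set_option autoImplicit false

namespace Pool.Agent.Results.MP_5f370d_co.Six

theorem result : ∃ K : Set (EuclideanSpace ℝ (Fin 2)),
    IsCompact K ∧ Convex ℝ K ∧ (interior K).Nonempty ∧
    ∃ (x : Fin 6 → EuclideanSpace ℝ (Fin 2)) (l : Fin 6 → ℝ), (∀ i, 0 < l i ∧ l i < 1 / 2) ∧
      K ⊆ ⋃ i, (fun k => x i + l i • k) '' K :=
  ⟨Pool.Agent.H3.Six.K, Pool.Agent.H3.Six.compact, Pool.Agent.H3.Six.convex,
    Pool.Agent.H3.Six.inter, Pool.Agent.H3.Six.T, fun _ => 49 / 100, fun _ => by norm_num,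
    Pool.Agent.H3.Six.cover⟩

end Pool.Agent.Results.MP_5f370d_co.Six
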